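import Pool.Agent.XCBip.Main

set_option autoImplicit false

/-!
# Bipartite graphs whose stable set polytopes have extension complexity of order at least `n^(7/6)`

There is `c > 0` such that for every `n` there is a bipartite graph on `n` vertices with the
following property: every polyhedron given by `f` linear inequalities that has the stable set
polytope of the graph as an affine image satisfies `c n^(7/6) ≤ f`.
-/

namespace Pool.Agent.Results.MP_955c09_co.BipartiteSevenSixths

theorem result : ∃ c : ℝ, 0 < c ∧ ∀ n : ℕ, ∃ G : SimpleGraph (Fin n),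
    (∃ side : Fin n → Bool, ∀ u v, G.Adj u v → side u ≠ side v) ∧
    ∀ (k f : ℕ) (A : Fin f → Fin k → ℝ) (b : Fin f → ℝ) (π : (Fin k → ℝ) →ᵃ[ℝ] (Fin n → ℝ)),
      π '' {y : Fin k → ℝ | ∀ i, ∑ j, A i j * y j ≤ b i} =
        convexHull ℝ {x : Fin n → ℝ | ∃ s : Finset (Fin n),
          (∀ u ∈ s, ∀ v ∈ s, ¬ G.Adj u v) ∧ x = fun i => if i ∈ s then (1:ℝ) else 0} →
      c * (n : ℝ) ^ (7 / 6 : ℝ) ≤ f := by
  obtain ⟨c, hc, h⟩ := Pool.Agent.XCBip.main
  refine ⟨c, hc, fun n => ?_⟩
  obtain ⟨G, hG, hG2⟩ := h n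
  refine ⟨G, hG, fun k f A b π hπ => hG2 k f A b π ?_⟩
  convert hπ

end Pool.Agent.Results.MP_955c09_co.BipartiteSevenSixths
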