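import Pool.Agent.Xbh.Rk
import Pool.Agent.Xbh.Gsp

set_option autoImplicit false

/-!
# Polynomial extension complexity for perfect graphs of bounded rank

The rank (`Pool.Agent.Xbh.Rank`, file `Pool/Agent/Xbh/Rank.lean`): rank `0` means linear pure pairs
(the strong Erdos-Hajnal property of all induced subgraphs, with the constant `e`); rank at most
`r + 1` means that every nonempty prime induced subgraph has a vertex whose neighbourhood or
non-neighbourhood has rank at most `r`.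

Clause 1: perfect graphs of bounded rank have stable set polytopes of polynomial extension
complexity. Clause 2: graphs without a hole tree of depth `r` (file `Pool/Agent/Xbh/Tree.lean`) have
rank at most `r`. Clause 3: bull-free graphs and generalized split graphs have rank at most `2`.
-/

namespace Pool.Agent.Results.MP_955c09_co.BoundedHoles

open Pool.Agent.Xbh

theorem result :
    (∀ e : ℝ, 0 < e → ∃ c : ℕ, ∀ (r n : ℕ) (G : SimpleGraph (Fin n)),
      (∀ S : Finset (Fin n), ∀ m : ℕ,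
        (∀ t : Finset (Fin n), t ⊆ S → (∀ u ∈ t, ∀ v ∈ t, u ≠ v → G.Adj u v) → t.card ≤ m) →
        ∃ c : Fin n → ℕ, (∀ u ∈ S, c u < m) ∧ ∀ u ∈ S, ∀ v ∈ S, G.Adj u v → c u ≠ c v) →
      Rank e G r Set.univ →
      ∃ k f : ℕ, ∃ A : Fin f → Fin k → ℝ, ∃ b : Fin f → ℝ,
        ∃ π : (Fin k → ℝ) →ᵃ[ℝ] (Fin n → ℝ),
        f ≤ (n + 1) ^ (c + 3 * r) ∧
        Bornology.IsBounded {y : Fin k → ℝ | ∀ i, ∑ j, A i j * y j ≤ b i} ∧
        π '' {y : Fin k → ℝ | ∀ i, ∑ j, A i j * y j ≤ b i} =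
          convexHull ℝ {x : Fin n → ℝ | ∃ s : Finset (Fin n),
            (∀ u ∈ s, ∀ v ∈ s, ¬ G.Adj u v) ∧ x = fun i => if i ∈ s then (1:ℝ) else 0}) ∧
    (∀ l : ℕ, ∃ e : ℝ, 0 < e ∧ ∀ (r n : ℕ) (G : SimpleGraph (Fin n)),
      ¬ HoleTree l G r Set.univ → Rank e G r Set.univ) ∧
    ∃ e : ℝ, 0 < e ∧ ∀ (n : ℕ) (G : SimpleGraph (Fin n)),
      BullFree G ∨ Unipolar G ∨ Unipolar Gᶜ → Rank e G 2 Set.univ := by
  refine ⟨fun e he => ?_, fun l => ?_, ?_⟩
  · obtain ⟨c, hc⟩ := rkt e he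
    refine ⟨c, fun r n G hG hh => ?_⟩
    have hX := hc r (Fin n) G Finset.univ hG (by rw [Finset.coe_univ]; exact hh)
    rw [Fintype.card_fin] at hX
    obtain ⟨k, A, b, π, h1, h2⟩ := hX
    refine ⟨k, (n + 1) ^ (c + 3 * r), A, b, π, le_refl _, h1, ?_⟩
    rw [h2]
    unfold STAB
    congr 1
    ext x
    constructor
    · rintro ⟨s, -, hs, rfl⟩
      exact ⟨s, hs, rfl⟩
    · rintro ⟨s, hs, rfl⟩
      exact ⟨s, Finset.subset_univ s, hs, rfl⟩
  · obtain ⟨e, he, h0⟩ := pbs l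
    exact ⟨e, he, fun r n G h => hrk l e G (h0 (Fin n) G) r _ (htr l G r _ h)⟩
  · obtain ⟨e, he, h6⟩ := pbs 6
    obtain ⟨e', he', h4⟩ := pbs 4
    have hmono : ∀ (d d' : ℝ) (n : ℕ) (G : SimpleGraph (Fin n)) (W : Set (Fin n)), d ≤ d' →
        Pairs d' G W → Pairs d G W := by
      intro d d' n G W hd hP S hS h2
      obtain ⟨A, B, hA, hB, hdj, h3, h5, h7⟩ := hP S hS h2
      have hle : d * S.card ≤ d' * S.card := mul_le_mul_of_nonneg_right hd (Nat.cast_nonneg _)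
      exact ⟨A, B, hA, hB, hdj, hle.trans h3, hle.trans h5, h7⟩
    refine ⟨min e e', lt_min he he', fun n G h => ?_⟩
    have k6 : ∀ (G' : SimpleGraph (Fin n)) (W : Set (Fin n)), HRank 6 G' 0 W →
        Pairs (min e e') G' W := fun G' W hW =>
      hmono _ _ n G' W (min_le_left _ _) (h6 (Fin n) G' W hW)
    have k4 : ∀ (G' : SimpleGraph (Fin n)) (W : Set (Fin n)), HRank 4 G' 0 W →
        Pairs (min e e') G' W := fun G' W hW =>
      hmono _ _ n G' W (min_le_right _ _) (h4 (Fin n) G' W hW)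
    rcases h with h | h | h
    · exact hrk 6 _ G (k6 G) 2 _ (bfr G h)
    · exact hrk 4 _ G (k4 G) 2 _ (gsp G h)
    · have h1 := rkc 4 Gᶜ 2 Set.univ (gsp Gᶜ h)
      rw [compl_compl] at h1
      exact hrk 4 _ G (k4 G) 2 _ h1

end Pool.Agent.Results.MP_955c09_co.BoundedHoles
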