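import Pool.Agent.XCPerf.Main

set_option autoImplicit false

/-!
# Perfect graphs whose stable set polytopes have extension complexity of order at least `n ^ (3/2)`

For all `n`, `m` with `3 m² ≤ n` there is a perfect graph on `n` vertices such that every
polyhedron given by `f` linear inequalities that has the stable set polytope of the graph as an
affine image satisfies `2 m³ ≤ f`.
-/

namespace Pool.Agent.Results.MP_955c09_co.ThreeHalves

open Pool.Agent.XCPerf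

theorem result : ∀ n m : ℕ, 3 * m ^ 2 ≤ n → ∃ G : SimpleGraph (Fin n),
    (∀ S : Finset (Fin n), ∀ w : ℕ,
      (∀ t : Finset (Fin n), t ⊆ S → (∀ u ∈ t, ∀ v ∈ t, u ≠ v → G.Adj u v) → t.card ≤ w) →
      ∃ c : Fin n → ℕ, (∀ u ∈ S, c u < w) ∧ ∀ u ∈ S, ∀ v ∈ S, G.Adj u v → c u ≠ c v) ∧
    ∀ (k f : ℕ) (A : Fin f → Fin k → ℝ) (b : Fin f → ℝ) (π : (Fin k → ℝ) →ᵃ[ℝ] (Fin n → ℝ)),
      π '' {y : Fin k → ℝ | ∀ i, ∑ j, A i j * y j ≤ b i} =
        convexHull ℝ {x : Fin n → ℝ | ∃ s : Finset (Fin n),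
          (∀ u ∈ s, ∀ v ∈ s, ¬ G.Adj u v) ∧ x = fun i => if i ∈ s then (1:ℝ) else 0} →
      2 * m ^ 3 ≤ f := by
  intro n m hnm
  obtain ⟨r, ⟨e⟩⟩ := exists_equiv m m n (by
    have : m ^ 2 + 2 * m * m = 3 * m ^ 2 := by ring
    omega)
  refine ⟨gr e, fun S w hw => gr_perfect e S w hw, ?_⟩
  intro k f A b π h
  have h1 := lower_bound e A b π h
  have h2 : 2 * m * m ^ 2 = 2 * m ^ 3 := by ring
  omega

end Pool.Agent.Results.MP_955c09_co.ThreeHalves
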