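import Pool.Agent.Xbh.Itr

set_option autoImplicit false

/-!
# Extension complexity, 2-joins and cutsets

`XC P f` (file `Pool/Agent/Xbh/Defs.lean`): `P` is an affine image of a bounded polyhedron with `f`
inequalities. `STAB G univ`: the stable set polytope of `G`. `JCls B k s` (file
`Pool/Agent/Xbh/JCls.lean`): the least classes which contain the graphs of `B`, the graphs whose
complement is in the class, the perfect graphs with a `k`-join whose blocks are in the class
(`k = 2`: the 2-join), and, for `s + 1`, the perfect graphs with two disjoint anticomplete vertex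
sets `A₁`, `A₂` whose deletions are in the class `s`. `SCls B t u s` (file
`Pool/Agent/Xbh/SCls.lean`): the same with proper 1-joins and 2-joins, and with the cutset rule also
without the increase of `s` if the potentials satisfy
`phi t u (G - A₁) + phi t u (G - A₂) ≤ phi t u G`, or if `A₁` and `A₂` are nonempty and the graph
without `A₂` is in `B`. `Itr B t u r` (file `Pool/Agent/Xbh/Itr.lean`): the iterates of the operation
`B ↦ SCls B t u 0`. `Bas`: the perfect graphs which are diamond-free or doubled.

Let the stable set polytopes of `G` and of its complement have extension complexity at most `p n`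
for the graphs `G` of `B` with `n` vertices. Clause 1: for the graphs in `JCls B k s` it is at most
`2 ^ (s + 2) * n * (p n + 2 * n + 6)`. Clause 2: for the graphs in `SCls B t u s` it is at most
`2 ^ (s + 2) * n ^ (t + 5 * u + 5) * (p n + 2 * n + 6)`. Clause 3: for the graphs in `Itr B t u r` it
is at most `(n + 1) ^ ((t + 5 * u + 10) * r) * (p n + 1)`. Clause 4: for the basic graphs `B = Bas`
it is at most `2 ^ s * (n + 1) ^ (c + t + 5 * u)` in clauses 1 and 2 and
`(n + 1) ^ (c + (t + 5 * u + 10) * r)` in clause 3.
-/

namespace Pool.Agent.Results.MP_955c09_co.TwoJoins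

open Pool.Agent.Xbh

theorem result :
    (∀ (B : (V : Type) → SimpleGraph V → Prop) (p : ℕ → ℕ), Monotone p →
      (∀ (V : Type) [Fintype V] [DecidableEq V] (G : SimpleGraph V), B V G →
        XC (STAB G Finset.univ) (p (Fintype.card V)) ∧
          XC (STAB Gᶜ Finset.univ) (p (Fintype.card V))) →
      ∀ (k r s t u n : ℕ) (G : SimpleGraph (Fin n)),
        (JCls B k s (Fin n) G →
          XC (STAB G Finset.univ) (2 ^ (s + 2) * n * (p n + 2 * n + 6))) ∧
        (SCls B t u s (Fin n) G →
          XC (STAB G Finset.univ) (2 ^ (s + 2) * n ^ (t + 5 * u + 5) * (p n + 2 * n + 6))) ∧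
        (Itr B t u r (Fin n) G →
          XC (STAB G Finset.univ) ((n + 1) ^ ((t + 5 * u + 10) * r) * (p n + 1)))) ∧
    ∃ c : ℕ, ∀ (k r s t u n : ℕ) (G : SimpleGraph (Fin n)),
      (SCls Bas t u s (Fin n) G ∨ JCls Bas k s (Fin n) G →
        XC (STAB G Finset.univ) (2 ^ s * (n + 1) ^ (c + t + 5 * u))) ∧
      (Itr Bas t u r (Fin n) G →
        XC (STAB G Finset.univ) ((n + 1) ^ (c + (t + 5 * u + 10) * r))) := by
  refine ⟨fun B p hp hB k r s t u n G => ⟨fun h => ?_, fun h => ?_, fun h => ?_⟩, ?_⟩
  · have h1 := jcy B p hp hB k s (Fin n) G h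
    rw [Fintype.card_fin] at h1
    exact h1
  · have h1 := scy B p hp hB t u s (Fin n) G h
    rw [Fintype.card_fin] at h1
    exact h1
  · have h1 := (itx B p hp hB t u r (Fin n) G h).1
    rw [Fintype.card_fin] at h1
    exact h1
  · obtain ⟨c, hc⟩ := scz
    obtain ⟨d, hd⟩ := itz
    refine ⟨max c d, fun k r s t u n G => ⟨fun h => ?_, fun h => ?_⟩⟩
    · exact XC_mono _ _ _ (hc k t u s n G h) (Nat.mul_le_mul_left _
        (Nat.pow_le_pow_right (Nat.succ_pos n) (Nat.add_le_add_right
          (Nat.add_le_add_right (le_max_left c d) t) (5 * u))))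
    · exact XC_mono _ _ _ (hd t u r n G h)
        (Nat.pow_le_pow_right (Nat.succ_pos n) (Nat.add_le_add_right (le_max_right c d) _))

end Pool.Agent.Results.MP_955c09_co.TwoJoins
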